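import Pool.Agent.Helper57_TOR.Real
import Pool.Agent.Helper20_TWS.Stmts

/-! W_surface, module EUC: the genus 2 realisation extended to genus `n`. -/

set_option autoImplicit false

namespace Pool.Agent.TWS.H57

open Pool.Agent.TOR Pool.Agent.TOR.H57 Pool.Agent.TWS

section

variable {n : ℕ} (a b : Fin n)

/-- the inclusion of the free group of the first two handles -/
def io : F4 →* Fn n := hom4 (xl a) (yl a) (xl b) (yl b)

/-- extension by the identity on the other letters -/
def ex (φ : MulAut F4) : Fn n →* Fn n :=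
  FreeGroup.lift fun p => if p.2 = a then (if p.1 = 0 then io a b (φ la) else io a b (φ lb))
    else if p.2 = b then (if p.1 = 0 then io a b (φ lc) else io a b (φ ld)) else FreeGroup.of p

theorem ex_xa (φ : MulAut F4) : ex a b φ (xl a) = io a b (φ la) := by
  unfold ex xl
  rw [FreeGroup.lift_apply_of, if_pos rfl, if_pos rfl]

theorem ex_ya (φ : MulAut F4) : ex a b φ (yl a) = io a b (φ lb) := by
  unfold ex yl
  rw [FreeGroup.lift_apply_of, if_pos rfl, if_neg (by simp)]

theorem ex_xb (hab : a ≠ b) (φ : MulAut F4) : ex a b φ (xl b) = io a b (φ lc) := by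
  unfold ex xl
  rw [FreeGroup.lift_apply_of, if_neg (Ne.symm hab), if_pos rfl, if_pos rfl]

theorem ex_yb (hab : a ≠ b) (φ : MulAut F4) : ex a b φ (yl b) = io a b (φ ld) := by
  unfold ex yl
  rw [FreeGroup.lift_apply_of, if_neg (Ne.symm hab), if_pos rfl, if_neg (by simp)]

theorem ex_of (φ : MulAut F4) (p : Fin 2 × Fin n) (h1 : p.2 ≠ a) (h2 : p.2 ≠ b) :
    ex a b φ (FreeGroup.of p) = FreeGroup.of p := by
  unfold ex
  rw [FreeGroup.lift_apply_of, if_neg h1, if_neg h2]

theorem ex_io (hab : a ≠ b) (φ : MulAut F4) (x : F4) : ex a b φ (io a b x) = io a b (φ x) := by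
  have h : (ex a b φ).comp (io a b) = (io a b).comp (φ : F4 ≃* F4).toMonoidHom := by
    refine FreeGroup.ext_hom _ _ (four ?_ ?_ ?_ ?_)
    · change ex a b φ (io a b la) = io a b (φ la)
      rw [← ex_xa a b φ]; unfold io; rw [hom4_a]
    · change ex a b φ (io a b lb) = io a b (φ lb)
      rw [← ex_ya a b φ]; unfold io; rw [hom4_b]
    · change ex a b φ (io a b lc) = io a b (φ lc)
      rw [← ex_xb a b hab φ]; unfold io; rw [hom4_c]
    · change ex a b φ (io a b ld) = io a b (φ ld)
      rw [← ex_yb a b hab φ]; unfold io; rw [hom4_d]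
  exact DFunLike.congr_fun h x

theorem ex_ex (hab : a ≠ b) (φ ψ : MulAut F4) (h : ∀ x, φ (ψ x) = x) (p : Fin 2 × Fin n) :
    ex a b φ (ex a b ψ (FreeGroup.of p)) = FreeGroup.of p := by
  by_cases h1 : p.2 = a
  · obtain ⟨i, j⟩ := p
    change j = a at h1
    subst h1
    fin_cases i
    · change ex j b φ (ex j b ψ (xl j)) = xl j
      rw [ex_xa, ex_io j b hab, h]; unfold io; rw [hom4_a]
    · change ex j b φ (ex j b ψ (yl j)) = yl j
      rw [ex_ya, ex_io j b hab, h]; unfold io; rw [hom4_b]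
  · by_cases h2 : p.2 = b
    · obtain ⟨i, j⟩ := p
      change j = b at h2
      subst h2
      fin_cases i
      · change ex a j φ (ex a j ψ (xl j)) = xl j
        rw [ex_xb a j hab, ex_io a j hab, h]; unfold io; rw [hom4_c]
      · change ex a j φ (ex a j ψ (yl j)) = yl j
        rw [ex_yb a j hab, ex_io a j hab, h]; unfold io; rw [hom4_d]
    · rw [ex_of a b ψ p h1 h2, ex_of a b φ p h1 h2]

/-- the extended automorphism -/
def exA (hab : a ≠ b) (φ : MulAut F4) : MulAut (Fn n) :=
  mkAut (ex a b φ) (ex a b φ⁻¹) (ex_ex a b hab φ φ⁻¹ fun x => MulAut.apply_inv_self _ φ x)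
    (ex_ex a b hab φ⁻¹ φ fun x => MulAut.inv_apply_self _ φ x)

theorem exA_apply (hab : a ≠ b) (φ : MulAut F4) (x : Fn n) : exA a b hab φ x = ex a b φ x := rfl

end

/-- the surface word starts with the first two handles -/
theorem zeta_eq (m : ℕ) : H59.zeta (m + 2) = io (0 : Fin (m + 2)) (1 : Fin (m + 2)) z2 *
    ((List.finRange m).map (fun j => FreeGroup.of ((0 : Fin 2), j.succ.succ) *
      FreeGroup.of ((1 : Fin 2), j.succ.succ) * (FreeGroup.of ((0 : Fin 2), j.succ.succ))⁻¹ *
      (FreeGroup.of ((1 : Fin 2), j.succ.succ))⁻¹)).prod := by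
  unfold H59.zeta
  rw [List.finRange_succ, List.finRange_succ]
  simp only [List.map_cons, List.map_map, List.prod_cons]
  rw [← mul_assoc]
  refine congrArg₂ (fun x y => x * y) ?_ rfl
  unfold io z2
  simp only [map_mul, map_inv, hom4_a, hom4_b, hom4_c, hom4_d]
  unfold xl yl
  rfl

theorem exA_zeta (m : ℕ) (φ : MulAut F4) (h : φ z2 = z2)
    (hab : (0 : Fin (m + 2)) ≠ (1 : Fin (m + 2))) :
    exA 0 1 hab φ (H59.zeta (m + 2)) = H59.zeta (m + 2) := by
  rw [exA_apply, zeta_eq, map_mul, ex_io _ _ hab, h, map_list_prod, List.map_map]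
  refine congrArg₂ (fun x y => x * y) rfl ?_
  refine congrArg List.prod (List.map_congr_left ?_)
  intro j _
  have h1 : (j.succ.succ : Fin (m + 2)) ≠ 0 := Fin.succ_ne_zero _
  have h2 : (j.succ.succ : Fin (m + 2)) ≠ 1 := by
    intro h3
    have := congrArg Fin.val h3
    simp at this
  simp only [Function.comp_apply, map_mul, map_inv]
  rw [ex_of _ _ φ ((0 : Fin 2), j.succ.succ) h1 h2, ex_of _ _ φ ((1 : Fin 2), j.succ.succ) h1 h2]

/-- a common denominator of four rational numbers -/
theorem denom (q : Fin 2 × Fin 2 → ℚ) : ∃ N : ℕ, 0 < N ∧ ∀ p, ∃ z : ℤ, (z : ℚ) = N * q p := by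
  refine ⟨∏ p, (q p).den, Finset.prod_pos fun p _ => (q p).den_pos, fun p => ?_⟩
  refine ⟨(∏ p' ∈ Finset.univ.erase p, ((q p').den : ℤ)) * (q p).num, ?_⟩
  have h1 : (∏ p' : Fin 2 × Fin 2, ((q p').den : ℚ)) =
      (q p).den * ∏ p' ∈ Finset.univ.erase p, ((q p').den : ℚ) :=
    (Finset.mul_prod_erase Finset.univ _ (Finset.mem_univ p)).symm
  push_cast
  rw [h1]
  have h2 : ((q p).den : ℚ) * q p = (q p).num := by
    rw [mul_comm]; exact Rat.mul_den_eq_num _
  linear_combination (-(∏ p' ∈ Finset.univ.erase p, ((q p').den : ℚ))) * h2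

/-- rational functionals on the free group on four letters -/
theorem real2Q (L : F4 →* Multiplicative ℚ) :
    ∃ φ : MulAut F4, φ z2 = z2 ∧ L (φ la) = 1 ∧ L (φ lb) = 1 := by
  obtain ⟨N, hN, h⟩ := denom fun p => Multiplicative.toAdd (L (FreeGroup.of p))
  choose z hz using h
  let L' : F4 →* Multiplicative ℤ := FreeGroup.lift fun p => Multiplicative.ofAdd (z p)
  have key : ∀ x, ((Multiplicative.toAdd (L' x) : ℤ) : ℚ) = N * Multiplicative.toAdd (L x) := by
    let A : F4 →* Multiplicative ℚ :=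
      (AddMonoidHom.toMultiplicative (Int.castAddHom ℚ)).comp L'
    let B : F4 →* Multiplicative ℚ :=
      (AddMonoidHom.toMultiplicative (AddMonoidHom.mulLeft (N : ℚ))).comp L
    have hAB : A = B := by
      refine FreeGroup.ext_hom _ _ fun p => ?_
      refine Multiplicative.toAdd.injective ?_
      change ((Multiplicative.toAdd (L' (FreeGroup.of p)) : ℤ) : ℚ) =
        N * Multiplicative.toAdd (L (FreeGroup.of p))
      rw [← hz p]
      change (((Multiplicative.toAdd
        (FreeGroup.lift (fun p => Multiplicative.ofAdd (z p)) (FreeGroup.of p)) : ℤ)) : ℚ) = _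
      rw [FreeGroup.lift_apply_of]
      rfl
    intro x
    exact congrArg Multiplicative.toAdd (DFunLike.congr_fun hAB x)
  obtain ⟨φ, h1, h2, h3⟩ := real2 L'
  have hN' : (N : ℚ) ≠ 0 := by exact_mod_cast hN.ne'
  refine ⟨φ, h1, ?_, ?_⟩
  · have h4 := key (φ la)
    rw [h2] at h4
    have h5 : (N : ℚ) * Multiplicative.toAdd (L (φ la)) = 0 := by rw [← h4]; simp
    exact Multiplicative.toAdd.injective ((mul_eq_zero.1 h5).resolve_left hN')
  · have h4 := key (φ lb)
    rw [h3] at h4
    have h5 : (N : ℚ) * Multiplicative.toAdd (L (φ lb)) = 0 := by rw [← h4]; simp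
    exact Multiplicative.toAdd.injective ((mul_eq_zero.1 h5).resolve_left hN')

theorem io_mem {n : ℕ} (a b : Fin n) (x : F4) :
    io a b x ∈ Subgroup.closure ({xl a, yl a, xl b, yl b} : Set (Fn n)) := by
  refine FreeGroup.induction_on x ?_ ?_ ?_ ?_
  · rw [map_one]; exact Subgroup.one_mem _
  · refine four ?_ ?_ ?_ ?_
    · change io a b la ∈ _
      unfold io; rw [hom4_a]; exact Subgroup.subset_closure (by simp)
    · change io a b lb ∈ _
      unfold io; rw [hom4_b]; exact Subgroup.subset_closure (by simp)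
    · change io a b lc ∈ _
      unfold io; rw [hom4_c]; exact Subgroup.subset_closure (by simp)
    · change io a b ld ∈ _
      unfold io; rw [hom4_d]; exact Subgroup.subset_closure (by simp)
  · intro p h; rw [map_inv]; exact Subgroup.inv_mem _ h
  · intro x y hx hy; rw [map_mul]; exact Subgroup.mul_mem _ hx hy

/-- EUC -/
theorem euc : EucS := by
  intro n a b ha hb f
  obtain ⟨m, rfl⟩ : ∃ m, n = m + 2 := ⟨n - 2, by have := b.2; omega⟩
  have ha' : a = 0 := Fin.ext ha
  have hb' : b = 1 := Fin.ext (by rw [hb]; rfl)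
  subst ha' hb'
  have hab : (0 : Fin (m + 2)) ≠ (1 : Fin (m + 2)) := by simp
  let L : F4 →* Multiplicative ℚ :=
    ((AddMonoidHom.toMultiplicative f.toAddMonoidHom).comp (hc (m + 2))).comp (io 0 1)
  have hL : ∀ x, Multiplicative.toAdd (L x) = f (cls (io (0 : Fin (m + 2)) 1 x)) := fun x => rfl
  obtain ⟨φ, h1, h2, h3⟩ := real2Q L
  refine ⟨exA 0 1 hab φ, exA_zeta m φ h1 hab, ?_, ?_, ?_⟩
  · intro u hu
    rw [exA_apply]
    induction hu using Subgroup.closure_induction with
    | mem x hx =>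
      rcases hx with rfl | rfl | rfl | rfl
      · rw [ex_xa]; exact io_mem _ _ _
      · rw [ex_ya]; exact io_mem _ _ _
      · rw [ex_xb _ _ hab]; exact io_mem _ _ _
      · rw [ex_yb _ _ hab]; exact io_mem _ _ _
    | one => rw [map_one]; exact Subgroup.one_mem _
    | mul x y _ _ hx hy => rw [map_mul]; exact Subgroup.mul_mem _ hx hy
    | inv x _ hx => rw [map_inv]; exact Subgroup.inv_mem _ hx
  · rw [exA_apply, ex_xa, ← hL, h2]; rfl
  · rw [exA_apply, ex_ya, ← hL, h3]; rfl

end Pool.Agent.TWS.H57
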